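import Mathlib
import Pool.Agent.H.MP_7934a7_lc.h84.PolyB

/-!
# Short strings `z`

If the verifier `U` uses only the first `s n` bits of `z`, where `2 ^ s n` is polynomially bounded,
then prover 1 can certify the answers to all questions to `B`, for all these strings.
-/

namespace Pool.Agent.H.MP_7934a7_lc.h84.SC

/-- claims for one question, of every length: an answer and certificates -/
abbrev Cl (V₁ V₂ : Verifier) (p : ℕ) :=
  (k : Fin (p + 1)) → Bool × (Str (V₁.len k) × Str (V₂.len k))

/-- universal strings for every length -/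
abbrev Un (V₁ V₂ : Verifier) (p : ℕ) := (k : Fin (p + 1)) → Str (V₁.len k) × Str (V₂.len k)

/-- replace the questions to `B` by checks of the claims of prover 1 -/
def sim1 (V₁ V₂ : Verifier) {p : ℕ} (e : Un V₁ V₂ p) : List (Cl V₁ V₂ p) →
    Alg (Word ⊕ (Σ k : Fin (p + 1), Str k)) → Alg Word
  | _, .out b => .out b
  | [], .ask _ _ => .out false
  | _ :: t, .ask (.inl q) next => .ask q (fun a => sim1 V₁ V₂ e t (next a))
  | c :: t, .ask (.inr q) next =>
    (check V₁ V₂ q.1 q.2 (c q.1).1 (c q.1).2 (e q.1) true false).bind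
      (fun r => if r = true then sim1 V₁ V₂ e t (next (c q.1).1) else .out false)

/-- the answers of `O` and `B` -/
abbrev both {p : ℕ} (O B : Lang) : Word ⊕ (Σ k : Fin (p + 1), Str k) → Bool :=
  Sum.elim (fun q => O q.1 q.2) (fun q => B q.1 q.2)

lemma sim1_complete {V₁ V₂ : Verifier} {p : ℕ} {O B : Lang}
    (hB : ∀ (k : Fin (p + 1)) (j : Str k), ∃ w, Good V₁ V₂ k O j (B k j) w)
    (A : Alg (Word ⊕ (Σ k : Fin (p + 1), Str k))) :
    ∀ c, A.AtMost c → ∃ l : List (Cl V₁ V₂ p), l.length = c ∧ ∀ e : Un V₁ V₂ p,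
      (sim1 V₁ V₂ e l A).run (fun q => O q.1 q.2) = A.run (both O B) := by
  classical
  have hdef : ∃ c₀ : Cl V₁ V₂ p, True :=
    ⟨fun _ => (false, (fun _ => false, fun _ => false)), trivial⟩
  obtain ⟨c₀, -⟩ := hdef
  induction A with
  | out b =>
    intro c _
    exact ⟨List.replicate c c₀, List.length_replicate, fun e => by
      unfold sim1
      rfl⟩
  | ask q next ih =>
    intro c hc
    cases c with
    | zero => exact absurd hc (by simp [Alg.AtMost])
    | succ c =>
      have hc' : ∀ a, (next a).AtMost c := hc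
      cases q with
      | inl q =>
        obtain ⟨l, hl, h⟩ := ih (O q.1 q.2) c (hc' _)
        refine ⟨c₀ :: l, by simp [hl], fun e => ?_⟩
        show (sim1 V₁ V₂ e l (next (O q.1 q.2))).run (fun q => O q.1 q.2) =
          (next (O q.1 q.2)).run (both O B)
        exact h e
      | inr q =>
        obtain ⟨l, hl, h⟩ := ih (B q.1 q.2) c (hc' _)
        obtain ⟨w, hw⟩ := hB q.1 q.2
        refine ⟨(fun k => if hk : k = q.1 then hk ▸ (B q.1 q.2, w) else c₀ k) :: l,
          by simp [hl], fun e => ?_⟩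
        show ((check V₁ V₂ q.1 q.2 _ _ (e q.1) true false).bind _).run _ = _
        rw [Alg.run_bind]
        simp only [dite_true]
        rw [check_good hw]
        rw [if_pos rfl]
        exact h e

lemma sim1_sound {V₁ V₂ : Verifier} {p : ℕ} {O B : Lang} {e : Un V₁ V₂ p}
    (he : ∀ k : Fin (p + 1), Refutes V₁ V₂ k O (B k) (e k))
    (A : Alg (Word ⊕ (Σ k : Fin (p + 1), Str k))) :
    ∀ l : List (Cl V₁ V₂ p), (sim1 V₁ V₂ e l A).run (fun q => O q.1 q.2) = true →
      A.run (both O B) = true := by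
  induction A with
  | out b =>
    intro l h
    unfold sim1 at h
    exact h
  | ask q next ih =>
    intro l h
    cases l with
    | nil =>
      unfold sim1 at h
      simp [Alg.run] at h
    | cons c t =>
      cases q with
      | inl q =>
        exact ih (O q.1 q.2) t h
      | inr q =>
        have h1 : ((check V₁ V₂ q.1 q.2 (c q.1).1 (c q.1).2 (e q.1) true false).bind
          (fun r => if r = true then sim1 V₁ V₂ e t (next (c q.1).1) else .out false)).run
            (fun q => O q.1 q.2) = true := h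
        rw [Alg.run_bind] at h1
        by_cases hb : (c q.1).1 = B q.1 q.2
        · show (next (B q.1 q.2)).run (both O B) = true
          rw [← hb]
          refine ih _ t ?_
          by_cases hr : (check V₁ V₂ q.1 q.2 (c q.1).1 (c q.1).2 (e q.1) true false).run
            (fun q => O q.1 q.2) = true
          · rw [if_pos hr] at h1
            exact h1
          · rw [if_neg hr] at h1
            simp [Alg.run] at h1
        · rw [check_refutes (he q.1) hb] at h1
          simp [Alg.run] at h1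

lemma sim1_cost {V₁ V₂ : Verifier} {p r : ℕ} (hr : ∀ k ≤ p, max (V₁.cost k) (V₂.cost k) ≤ r)
    (e : Un V₁ V₂ p) (A : Alg (Word ⊕ (Σ k : Fin (p + 1), Str k))) :
    ∀ c, A.AtMost c → ∀ l : List (Cl V₁ V₂ p), (sim1 V₁ V₂ e l A).AtMost (c * (r + 1)) := by
  induction A with
  | out b =>
    intro c _ l
    unfold sim1
    simp [Alg.AtMost]
  | ask q next ih =>
    intro c hc l
    cases c with
    | zero => exact absurd hc (by simp [Alg.AtMost])
    | succ c =>
      have hc' : ∀ a, (next a).AtMost c := hc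
      cases l with
      | nil =>
        unfold sim1
        simp [Alg.AtMost]
      | cons d t =>
        cases q with
        | inl q =>
          have h1 : ∀ a, (sim1 V₁ V₂ e t (next a)).AtMost (c * (r + 1)) :=
            fun a => ih a c (hc' a) t
          refine Alg.atMost_mono _ (c * (r + 1) + 1) _ (by nlinarith) ?_
          exact h1
        | inr q =>
          have h2 : (sim1 V₁ V₂ e (d :: t) (.ask (.inr q) next)).AtMost
              (max (V₁.cost q.1) (V₂.cost q.1) + c * (r + 1)) := by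
            refine Alg.atMost_bind _ _ _ (fun a => ?_) _ (check_cost _ _ _ _ _ _ _ _ _)
            split_ifs
            · exact ih _ c (hc' _) t
            · simp [Alg.AtMost]
          have h3 := hr q.1 (by have := q.1.2; omega)
          exact Alg.atMost_mono _ _ _ (by nlinarith) h2

/-- conjunction of algorithms -/
def conj : List (Alg Word) → Alg Word
  | [] => .out true
  | A :: l => A.bind (fun r => if r = true then conj l else .out false)

lemma conj_run (O : Lang) (l : List (Alg Word)) :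
    (conj l).run (fun q => O q.1 q.2) = true ↔ ∀ A ∈ l, A.run (fun q => O q.1 q.2) = true := by
  induction l with
  | nil => simp [conj, Alg.run]
  | cons A l ih =>
    unfold conj
    rw [Alg.run_bind]
    by_cases h : A.run (fun q => O q.1 q.2) = true
    · rw [if_pos h, ih]
      simp [h]
    · rw [if_neg h]
      simp [Alg.run, h]

lemma conj_cost (c : ℕ) (l : List (Alg Word)) (h : ∀ A ∈ l, A.AtMost c) :
    (conj l).AtMost (l.length * c) := by
  induction l with
  | nil => simp [conj, Alg.AtMost]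
  | cons A l ih =>
    unfold conj
    have h1 := Alg.atMost_bind A (fun r => if r = true then conj l else .out false)
      (l.length * c) (fun r => by
        split_ifs
        · exact ih fun B hB => h B (List.mem_cons_of_mem _ hB)
        · simp [Alg.AtMost]) c (h A List.mem_cons_self)
    refine Alg.atMost_mono _ _ _ ?_ h1
    rw [List.length_cons]
    nlinarith

/-- only the first `t` bits of `z` are used at inputs of length `n` -/
def UsesOnly (U : Verifier₂) (t n : ℕ) : Prop :=
  ∀ x y z z', (∀ i : Fin (U.len n), (i : ℕ) < t → z i = z' i) → U.alg n x y z = U.alg n x y z'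

/-- fill up with zeros -/
def fill {t : ℕ} (m : ℕ) (u : Str t) : Str m := fun i => if h : (i : ℕ) < t then u ⟨i, h⟩ else false

/-- the first bits -/
def cut {m : ℕ} (t : ℕ) (z : Str m) : Str t := fun i => if h : (i : ℕ) < m then z ⟨i, h⟩ else false

lemma fill_cut {m t : ℕ} (z : Str m) (i : Fin m) (hi : (i : ℕ) < t) : fill m (cut t z) i = z i := by
  unfold fill cut
  rw [dif_pos hi]
  simp

lemma exists_ofFn {α : Type} {c : ℕ} (l : List α) (h : l.length = c) :
    ∃ g : Fin c → α, List.ofFn g = l := by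
  subst h
  exact ⟨l.get, List.ofFn_get l⟩

/-- **Short `z`.** -/
theorem short_strings (s : ℕ → ℕ) (hs : PolyBdd fun n => 2 ^ s n) (V₁ V₂ : Verifier)
    (h₁ : V₁.Poly) (h₂ : V₂.Poly) (U : Verifier₂) (hU : U.Poly)
    (hUs : ∀ n, UsesOnly U (s n) n) :
    ∃ V : Verifier, V.Poly ∧ ∀ (O B : Lang) (n : ℕ),
      (∀ k ≤ U.size n, NO2 (V₁.value O k) (B k) ∧ YO2 (V₂.value O k) (B k)) →
        ∀ S : Str n → Bool, S2 (U.value O B n) S → NO2 (V.value O n) S := by
  classical
  obtain ⟨M₁, hM₁, hM₁'⟩ := h₁.1.sup hU.2.2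
  obtain ⟨M₂, hM₂, hM₂'⟩ := h₂.1.sup hU.2.2
  obtain ⟨r₁, hr₁, hr₁'⟩ := h₁.2.sup hU.2.2
  obtain ⟨r₂, hr₂, hr₂'⟩ := h₂.2.sup hU.2.2
  obtain ⟨E, hE⟩ : ∃ E : ℕ → ℕ, ∀ n, E n = (U.size n + 1) * (1 + (M₁ n + M₂ n)) := ⟨_, fun _ => rfl⟩
  obtain ⟨Ln, hLn⟩ : ∃ Ln : ℕ → ℕ, ∀ n, Ln n =
      U.len n + 2 ^ s n * (U.cost n * E n) + E n := ⟨_, fun _ => rfl⟩
  have hUn : ∀ n, Fintype.card (Un V₁ V₂ (U.size n)) ≤ 2 ^ E n := by
    intro n
    simp only [Fintype.card_pi, Fintype.card_prod, Fintype.card_fin,
      Fintype.card_bool, Finset.prod_const, Finset.card_univ, ← pow_add]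
    rw [Finset.prod_pow_eq_pow_sum]
    refine Nat.pow_le_pow_right (by norm_num) ?_
    rw [hE]
    calc ∑ k : Fin (U.size n + 1), (V₁.len k + V₂.len k)
        ≤ ∑ _k : Fin (U.size n + 1), (1 + (M₁ n + M₂ n)) := Finset.sum_le_sum (fun k _ => by
          have e1 := hM₁' n k (by have := k.2; omega)
          have e2 := hM₂' n k (by have := k.2; omega)
          omega)
      _ = (U.size n + 1) * (1 + (M₁ n + M₂ n)) := by simp
  have hCl : ∀ n, Fintype.card (Cl V₁ V₂ (U.size n)) ≤ 2 ^ E n := by
    intro n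
    simp only [Fintype.card_pi, Fintype.card_prod, Fintype.card_fin,
      Fintype.card_bool, Finset.prod_const, Finset.card_univ, ← pow_add]
    have e : ∀ k : Fin (U.size n + 1), 2 * 2 ^ (V₁.len k + V₂.len k) =
        2 ^ (1 + (V₁.len k + V₂.len k)) := by
      intro k
      rw [Nat.add_comm 1, pow_succ, Nat.mul_comm]
    simp only [e]
    rw [Finset.prod_pow_eq_pow_sum]
    refine Nat.pow_le_pow_right (by norm_num) ?_
    rw [hE]
    calc ∑ k : Fin (U.size n + 1), (1 + (V₁.len k + V₂.len k))
        ≤ ∑ _k : Fin (U.size n + 1), (1 + (M₁ n + M₂ n)) := Finset.sum_le_sum (fun k _ => by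
          have e1 := hM₁' n k (by have := k.2; omega)
          have e2 := hM₂' n k (by have := k.2; omega)
          omega)
      _ = (U.size n + 1) * (1 + (M₁ n + M₂ n)) := by simp
  have hD : ∀ n, ∃ f : Str (Ln n) → Str (U.len n) ×
      (Str (s n) → Fin (U.cost n) → Cl V₁ V₂ (U.size n)), Function.Surjective f := by
    intro n
    apply exists_decoder
    have e1 : Fintype.card (Str (U.len n)) = 2 ^ U.len n := by simp
    have e2 : Fintype.card (Str (s n)) = 2 ^ s n := by simp
    have e3 : Fintype.card (Str (s n) → Fin (U.cost n) → Cl V₁ V₂ (U.size n)) =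
        (Fintype.card (Cl V₁ V₂ (U.size n)) ^ U.cost n) ^ 2 ^ s n := by
      rw [Fintype.card_fun (α := Str (s n)), Fintype.card_fun (α := Fin (U.cost n)), e2,
        Fintype.card_fin]
    rw [Fintype.card_prod, e1, e3]
    calc 2 ^ U.len n * (Fintype.card (Cl V₁ V₂ (U.size n)) ^ U.cost n) ^ 2 ^ s n
        ≤ 2 ^ U.len n * ((2 ^ E n) ^ U.cost n) ^ 2 ^ s n :=
          Nat.mul_le_mul_left _ (Nat.pow_le_pow_left (Nat.pow_le_pow_left (hCl n) _) _)
      _ = 2 ^ (U.len n + 2 ^ s n * (U.cost n * E n)) := by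
          rw [← pow_mul, ← pow_mul, ← pow_add]
          congr 1
          ring
      _ ≤ 2 ^ Ln n := Nat.pow_le_pow_right (by norm_num) (by rw [hLn]; omega)
  have hD' : ∀ n, ∃ f : Str (Ln n) → Un V₁ V₂ (U.size n), Function.Surjective f := by
    intro n
    apply exists_decoder
    exact (hUn n).trans (Nat.pow_le_pow_right (by norm_num) (by rw [hLn]; omega))
  choose D hD using hD
  choose D' hD' using hD'
  obtain ⟨al, hal⟩ : ∃ al : (n : ℕ) → Str n → Str (Ln n) → Str (Ln n) → Alg Word,
      ∀ n x y z, al n x y z = conj ((Finset.univ : Finset (Str (s n))).toList.map fun t =>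
        sim1 V₁ V₂ (D' n z) (List.ofFn ((D n y).2 t)) (U.alg n x (D n y).1 (fill _ t))) :=
    ⟨_, fun _ _ _ _ => rfl⟩
  have hcost : ∀ n x y z, (al n x y z).AtMost (2 ^ s n * (U.cost n * (r₁ n + r₂ n + 1))) := by
    intro n x y z
    rw [hal]
    have h := conj_cost (U.cost n * (r₁ n + r₂ n + 1)) ((Finset.univ : Finset (Str (s n))).toList.map
      fun t => sim1 V₁ V₂ (D' n z) (List.ofFn ((D n y).2 t)) (U.alg n x (D n y).1 (fill _ t)))
      (fun A hA => by
        obtain ⟨t, -, rfl⟩ := List.mem_map.1 hA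
        exact sim1_cost (fun k hk => max_le ((hr₁' n k hk).trans (Nat.le_add_right _ _))
          ((hr₂' n k hk).trans (Nat.le_add_left _ _))) _ _ _ (U.alg_cost n _ _ _) _)
    rw [List.length_map, Finset.length_toList, Finset.card_univ] at h
    have e2 : Fintype.card (Str (s n)) = 2 ^ s n := by simp
    rw [e2] at h
    exact h
  refine ⟨⟨Ln, fun n => 2 ^ s n * (U.cost n * (r₁ n + r₂ n + 1)), al, hcost⟩, ⟨?_, ?_⟩,
    fun O B n hB S hS => ?_⟩
  · have hEp : PolyBdd E := by
      have h3 : PolyBdd (fun n => (U.size n + 1) * (1 + (M₁ n + M₂ n))) :=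
        (hU.2.2.add (PolyBdd.const 1)).mul ((PolyBdd.const 1).add (hM₁.add hM₂))
      exact h3.mono (fun n => (hE n).le)
    have h3 : PolyBdd (fun n => U.len n + 2 ^ s n * (U.cost n * E n) + E n) :=
      (hU.1.add (hs.mul (hU.2.1.mul hEp))).add hEp
    exact h3.mono (fun n => (hLn n).le)
  · exact hs.mul (hU.2.1.mul ((hr₁.add hr₂).add (PolyBdd.const 1)))
  · have hu : ∀ k : Fin (U.size n + 1), ∃ e : Str (V₁.len k) × Str (V₂.len k),
        Refutes V₁ V₂ k O (B k) e := by
      intro k
      obtain ⟨⟨z₀, hz₀⟩, y₀, hy₀⟩ := hB k (by have := k.2; omega)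
      exact ⟨(z₀, y₀), fun j => ⟨fun h y => (hz₀ j).2 h y, fun h z => (hy₀ j).1 h z⟩⟩
    choose e he using hu
    have hg : ∀ (k : Fin (U.size n + 1)) (j : Str k), ∃ w, Good V₁ V₂ k O j (B k j) w := by
      intro k j
      obtain ⟨⟨z₀, hz₀⟩, y₀, hy₀⟩ := hB k (by have := k.2; omega)
      cases hj : B k j with
      | true =>
        obtain ⟨y, hy⟩ := (hz₀ j).1 hj
        exact ⟨(y, fun _ => false), fun _ => hy, fun h => absurd h (by simp)⟩
      | false =>
        obtain ⟨z, hz⟩ := (hy₀ j).2 hj
        exact ⟨(fun _ => false, z), fun h => absurd h (by simp), fun _ => hz⟩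
    obtain ⟨Z, hZ⟩ := hD' n e
    refine ⟨Z, fun x => ⟨fun hx => ?_, fun hx y => ?_⟩⟩
    · obtain ⟨y, hy⟩ := (hS x).1 hx
      have hl : ∀ t : Str (s n), ∃ g : Fin (U.cost n) → Cl V₁ V₂ (U.size n),
          ∀ e' : Un V₁ V₂ (U.size n), (sim1 V₁ V₂ e' (List.ofFn g)
            (U.alg n x y (fill _ t))).run (fun q => O q.1 q.2) = true := by
        intro t
        obtain ⟨l, hl, h⟩ := sim1_complete hg (U.alg n x y (fill _ t)) _ (U.alg_cost n _ _ _)
        obtain ⟨g, hgl⟩ := exists_ofFn l hl
        refine ⟨g, fun e' => ?_⟩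
        rw [hgl, h e']
        exact hy _
      choose g hg' using hl
      obtain ⟨Y, hY⟩ := hD n (y, g)
      refine ⟨Y, fun z => ?_⟩
      show (al n x Y z).run (fun q => O q.1 q.2) = true
      rw [hal, conj_run]
      intro A hA
      obtain ⟨t, -, rfl⟩ := List.mem_map.1 hA
      rw [hY]
      exact hg' t _
    · show (al n x y Z).run (fun q => O q.1 q.2) = false
      rw [Bool.eq_false_iff]
      intro h
      rw [hal, conj_run] at h
      obtain ⟨z, hz⟩ := (hS x).2 hx
      have h1 := h _ (List.mem_map.2 ⟨cut (s n) z, Finset.mem_toList.2 (Finset.mem_univ _), rfl⟩)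
      rw [hZ] at h1
      have h2 := sim1_sound he _ _ h1
      have h3 := hUs n x (D n y).1 (fill (U.len n) (cut (s n) z)) z
        (fun i hi => fill_cut z i hi)
      rw [h3] at h2
      have h4 := hz (D n y).1
      unfold Verifier₂.value at h4
      rw [h4] at h2
      exact absurd h2 (by simp)

end Pool.Agent.H.MP_7934a7_lc.h84.SC
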