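import Mathlib
import Pool.Agent.H.MP_7934a7_lc.QL.ShortZ

/-!
# Short strings `y` (by exchange of the provers)
-/

namespace Pool.Agent.H.MP_7934a7_lc.h84.SC

/-- negate the output -/
def Alg.neg {Q : Type} : Alg Q → Alg Q
  | .out b => .out (!b)
  | .ask q next => .ask q (fun a => (next a).neg)

lemma Alg.run_neg {Q : Type} (f : Q → Bool) (A : Alg Q) : A.neg.run f = !(A.run f) := by
  induction A with
  | out b => rfl
  | ask q next ih => exact ih (f q)

lemma Alg.atMost_neg {Q : Type} (A : Alg Q) : ∀ c, A.AtMost c → A.neg.AtMost c := by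
  induction A with
  | out b => intro c _; simp [Alg.neg, Alg.AtMost]
  | ask q next ih =>
    intro c hc
    cases c with
    | zero => exact absurd hc (by simp [Alg.AtMost])
    | succ c =>
      have hc' : ∀ a, (next a).AtMost c := hc
      exact fun a => ih a c (hc' a)

/-- the verifier with the provers exchanged -/
def Verifier.dual (V : Verifier) : Verifier where
  len := V.len
  cost := V.cost
  alg := fun n x y z => (V.alg n x z y).neg
  alg_cost := fun n x y z => Alg.atMost_neg _ _ (V.alg_cost n x z y)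

/-- the verifier with the provers exchanged -/
def Verifier₂.dual (U : Verifier₂) : Verifier₂ where
  len := U.len
  cost := U.cost
  size := U.size
  alg := fun n x y z => (U.alg n x z y).neg
  alg_cost := fun n x y z => Alg.atMost_neg _ _ (U.alg_cost n x z y)

lemma Verifier.dual_value (V : Verifier) (O : Lang) (n : ℕ) (x : Str n) (y z : Str (V.len n)) :
    V.dual.value O n x y z = !(V.value O n x z y) := Alg.run_neg _ _

lemma Verifier₂.dual_value (U : Verifier₂) (O B : Lang) (n : ℕ) (x : Str n)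
    (y z : Str (U.len n)) : U.dual.value O B n x y z = !(U.value O B n x z y) := Alg.run_neg _ _

/-- only the first `t` bits of `y` are used at inputs of length `n` -/
def UsesOnlyY (U : Verifier₂) (t n : ℕ) : Prop :=
  ∀ x y y' z, (∀ i : Fin (U.len n), (i : ℕ) < t → y i = y' i) → U.alg n x y z = U.alg n x y' z

/-- **Short `y`.** -/
theorem short_strings_y (s : ℕ → ℕ) (hs : PolyBdd fun n => 2 ^ s n) (V₁ V₂ : Verifier)
    (h₁ : V₁.Poly) (h₂ : V₂.Poly) (U : Verifier₂) (hU : U.Poly)
    (hUs : ∀ n, UsesOnlyY U (s n) n) :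
    ∃ V : Verifier, V.Poly ∧ ∀ (O B : Lang) (n : ℕ),
      (∀ k ≤ U.size n, NO2 (V₁.value O k) (B k) ∧ YO2 (V₂.value O k) (B k)) →
        ∀ S : Str n → Bool, S2 (U.value O B n) S → YO2 (V.value O n) S := by
  obtain ⟨V, hV, h⟩ := short_strings s hs V₁ V₂ h₁ h₂ U.dual hU
    (fun n x y z z' hz => by
      show (U.alg n x z y).neg = (U.alg n x z' y).neg
      rw [hUs n x z z' y hz])
  refine ⟨V.dual, hV, fun O B n hB S hS => ?_⟩
  have hS' : S2 (U.dual.value O B n) (fun x => !(S x)) := by
    intro x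
    refine ⟨fun hx => ?_, fun hx => ?_⟩
    · obtain ⟨z, hz⟩ := (hS x).2 (by simpa using hx)
      refine ⟨z, fun y => ?_⟩
      rw [Verifier₂.dual_value, hz y]
      rfl
    · obtain ⟨y, hy⟩ := (hS x).1 (by simpa using hx)
      refine ⟨y, fun z => ?_⟩
      rw [Verifier₂.dual_value, hy z]
      rfl
  obtain ⟨z₀, hz₀⟩ := h O B n hB _ hS'
  refine ⟨z₀, fun x => ⟨fun hx z => ?_, fun hx => ?_⟩⟩
  · rw [Verifier.dual_value, (hz₀ x).2 (by simp [hx]) z]
    rfl
  · obtain ⟨y, hy⟩ := (hz₀ x).1 (by simp [hx])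
    refine ⟨y, fun z => ?_⟩
    rw [Verifier.dual_value, hy z]
    rfl

end Pool.Agent.H.MP_7934a7_lc.h84.SC
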