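import Mathlib
import Pool.Agent.H.MP_7934a7_lc.h84.Lowness

/-!
# The length of the questions: logarithmic length is harmless, and no larger length is
-/

namespace Pool.Agent.H.MP_7934a7_lc.h84.SC

/-! ### Short questions are harmless -/

theorem short_questions (s : ℕ → ℕ) (hs : PolyBdd fun n => 2 ^ s n) (V₁ V₂ : Verifier)
    (h₁ : V₁.Poly) (h₂ : V₂.Poly) (U : Verifier₂) (hU : U.Poly) (hUs : ∀ n, U.size n ≤ s n) :
    ∃ V : Verifier, V.Poly ∧ ∀ (O B : Lang) (n : ℕ),
      (∀ k ≤ U.size n, NO2 (V₁.value O k) (B k) ∧ YO2 (V₂.value O k) (B k)) →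
        ∀ S : Str n → Bool,
          (NO2 (U.value O B n) S → NO2 (V.value O n) S) ∧
          (YO2 (U.value O B n) S → YO2 (V.value O n) S) ∧
          (O2 (U.value O B n) S → O2 (V.value O n) S) ∧
          (S2 (U.value O B n) S → S2 (V.value O n) S) := by
  classical
  obtain ⟨W, hW1, hW2, hW3⟩ := small (fun _ => Finset.univ) (fun _ => Finset.univ_nonempty)
    (fun k => 2 ^ k) (fun k => by
      rw [Finset.card_univ]
      simp only [Fintype.card_fun, Fintype.card_fin, Fintype.card_bool]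
      exact le_rfl) V₁ V₂
  obtain ⟨M₁, hM₁, hM₁'⟩ := h₁.1.sup hU.2.2
  obtain ⟨M₂, hM₂, hM₂'⟩ := h₂.1.sup hU.2.2
  obtain ⟨r₁, hr₁, hr₁'⟩ := h₁.2.sup hU.2.2
  obtain ⟨r₂, hr₂, hr₂'⟩ := h₂.2.sup hU.2.2
  obtain ⟨V, hV1, hV2, hV3⟩ := simulate W U
    (fun n => 2 ^ s n + (2 ^ s n + 2) * (M₁ n + M₂ n)) (fun n => r₁ n + r₂ n)
    (fun n k hk => by
      rw [hW1 k]
      have e1 : 2 ^ k ≤ 2 ^ s n := Nat.pow_le_pow_right (by norm_num) (hk.trans (hUs n))
      have e2 : V₁.len k + V₂.len k ≤ M₁ n + M₂ n := Nat.add_le_add (hM₁' n k hk) (hM₂' n k hk)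
      exact Nat.add_le_add e1 (Nat.mul_le_mul (Nat.add_le_add_right e1 2) e2))
    (fun n k hk => by
      rw [hW2 k]
      exact max_le ((hr₁' n k hk).trans (Nat.le_add_right _ _))
        ((hr₂' n k hk).trans (Nat.le_add_left _ _)))
  refine ⟨V, ⟨?_, ?_⟩, fun O B n hB S => hV3 O B n S fun k hk => ?_⟩
  · have h3 : PolyBdd (fun n => U.len n +
        (U.size n + 1) * (2 ^ s n + (2 ^ s n + 2) * (M₁ n + M₂ n))) :=
      hU.1.add ((hU.2.2.add (PolyBdd.const 1)).mul
        (hs.add ((hs.add (PolyBdd.const 2)).mul (hM₁.add hM₂))))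
    exact h3.mono (fun n => (hV1 n).le)
  · have h3 : PolyBdd (fun n => U.cost n * (r₁ n + r₂ n + 1)) :=
      hU.2.1.mul ((hr₁.add hr₂).add (PolyBdd.const 1))
    exact h3.mono (fun n => (hV2 n).le)
  · exact hW3 O B k (Finset.mem_univ _) (hB k hk).1 (hB k hk).2

/-! ### Longer questions -/

/-- all strings -/
def allS : (k : ℕ) → Finset (Str k) := fun _ => Finset.univ

lemma rad_allS (k : ℕ) : rad allS k = k / 3 := by
  unfold rad allS
  rw [Finset.card_univ]
  have e : Fintype.card (Str k) = 2 ^ k := by simp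
  rw [e, Nat.log_pow (by norm_num)]

/-- the verifier that asks one question, of length `s n`, to `B` -/
noncomputable def askLen (s : ℕ → ℕ) : Verifier₂ where
  len := s
  cost := fun _ => 1
  size := s
  alg := fun n _ y z => .ask (.inr ⟨⟨s n, Nat.lt_succ_self (s n)⟩, pos2 allS (s n) y z⟩) .out
  alg_cost := fun _ _ _ _ => by simp [Alg.AtMost]

lemma askLen_value (s : ℕ → ℕ) (O B : Lang) (n : ℕ) (x : Str n) (y z : Str (s n)) :
    (askLen s).value O B n x y z = B (s n) (pos2 allS (s n) y z) := rfl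

/-- a length `n` with `s n = k` for which the verifier is cheap, if there is one -/
noncomputable def back (s : ℕ → ℕ) (V : Verifier) (k : ℕ) : ℕ := by
  classical
  exact if h : ∃ n, s n = k ∧ V.len n + V.cost n ≤ 2 ^ (k / 3 / 8) then h.choose else 0

/-- the verifier for the length `s n` that runs `V` for the length `n` -/
noncomputable def pull (s : ℕ → ℕ) (V : Verifier) : Verifier where
  len := fun k => V.len (back s V k)
  cost := fun k => V.cost (back s V k)
  alg := fun k _ y z => V.alg (back s V k) (fun _ => true) y z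
  alg_cost := fun _ _ y z => V.alg_cost _ _ y z

lemma pull_S2 (s : ℕ → ℕ) (V : Verifier) (O : Lang) (k : ℕ) (t : Bool)
    (h : S2 (V.value O (back s V k)) (fun _ => t)) : S2 ((pull s V).value O k) (fun _ => t) :=
  fun _ => h (fun _ => true)

theorem long_questions (s : ℕ → ℕ) (hs : ¬ PolyBdd fun n => 2 ^ s n) (V : ℕ → Verifier)
    (hV : ∀ i, (V i).Poly) :
    ∃ O B : Lang, Certified O B ∧ ∃ T : ℕ → Bool,
      (∀ n, O2 ((askLen s).value O B n) (fun _ => T n)) ∧
      ∀ i N, ∃ n ≥ N, ¬ S2 ((V i).value O n) (fun _ => T n) := by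
  classical
  have hlarge : ∀ d N, ∃ n ≥ N, (n + 2) ^ d < 2 ^ s n := by
    intro d N
    by_contra hcon
    push Not at hcon
    obtain ⟨c, hc⟩ : ∃ c, ∀ n < N, s n ≤ c := by
      refine ⟨(Finset.range N).sup s, fun n hn => ?_⟩
      exact Finset.le_sup (Finset.mem_range.2 hn)
    refine hs ⟨d + c, fun n => ?_⟩
    rcases le_or_gt N n with h | h
    · exact (hcon n h).trans (Nat.pow_le_pow_right (by omega) (by omega))
    · calc 2 ^ s n ≤ 2 ^ (d + c) := Nat.pow_le_pow_right (by norm_num) (by have := hc n h; omega)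
        _ ≤ (n + 2) ^ (d + c) := Nat.pow_le_pow_left (by omega) _
  obtain ⟨O, B, h1, h2, h3⟩ := diagonal (fun i => pull s (V i)) (Req allS)
    (fun i k v b => s (back s (V i) k) = k ∧ ¬ S2 v (fun _ => tally allS k b))
    (fun k => ⟨fun _ => false, fun _ _ => rfl, Or.inr ⟨fun _ => false, fun _ => rfl⟩⟩) (by
    intro i N O₀ B₀ hC hP
    obtain ⟨e₁, he₁⟩ := (hV i).1
    obtain ⟨e₂, he₂⟩ := (hV i).2
    obtain ⟨n, hn, hcard⟩ := hlarge (24 * (e₁ + e₂ + 2) + 400) (2 ^ (N + 1))
    obtain ⟨k, hk⟩ : ∃ k, k = s n := ⟨_, rfl⟩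
    rw [← hk] at hcard
    have hkN : N < k := by
      have h4 : 2 ^ (N + 1) < 2 ^ k := by
        refine lt_of_le_of_lt ?_ hcard
        calc 2 ^ (N + 1) ≤ n + 2 := by omega
          _ = (n + 2) ^ 1 := (pow_one _).symm
          _ ≤ (n + 2) ^ (24 * (e₁ + e₂ + 2) + 400) := Nat.pow_le_pow_right (by omega) (by omega)
      have h5 := (Nat.pow_lt_pow_iff_right (by norm_num : 1 < 2)).mp h4
      omega
    have ha : 96 ≤ k / 3 := by
      have h4 : 2 ^ (24 * (e₁ + e₂ + 2) + 400) < 2 ^ k :=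
        lt_of_le_of_lt (Nat.pow_le_pow_left (by omega) _) hcard
      have h5 := (Nat.pow_lt_pow_iff_right (by norm_num : 1 < 2)).mp h4
      omega
    have hsmall : (V i).len n + (V i).cost n ≤ 2 ^ (k / 3 / 8) := by
      by_contra hcon
      push Not at hcon
      have h5 : (V i).len n + (V i).cost n ≤ (n + 2) ^ (e₁ + e₂ + 1) := by
        have g1 : (n + 2) ^ e₁ ≤ (n + 2) ^ (e₁ + e₂) :=
          Nat.pow_le_pow_right (by omega) (by omega)
        have g2 : (n + 2) ^ e₂ ≤ (n + 2) ^ (e₁ + e₂) :=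
          Nat.pow_le_pow_right (by omega) (by omega)
        have g3 : (n + 2) ^ (e₁ + e₂ + 1) = (n + 2) ^ (e₁ + e₂) * (n + 2) := pow_succ _ _
        have g4 : (n + 2) ^ (e₁ + e₂) * 2 ≤ (n + 2) ^ (e₁ + e₂) * (n + 2) :=
          Nat.mul_le_mul_left _ (by omega)
        have g5 := he₁ n
        have g6 := he₂ n
        omega
      have h6 : 2 ^ (k / 3 / 8) < (n + 2) ^ (e₁ + e₂ + 1) := lt_of_lt_of_le hcon h5
      have h7 : 2 ^ k ≤ (n + 2) ^ (24 * (e₁ + e₂ + 2) + 400) := by
        calc 2 ^ k ≤ 2 ^ (24 * (k / 3 / 8) + 24) :=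
              Nat.pow_le_pow_right (by norm_num) (by omega)
          _ = (2 ^ (k / 3 / 8)) ^ 24 * 2 ^ 24 := by rw [pow_add, ← pow_mul, mul_comm 24]
          _ ≤ ((n + 2) ^ (e₁ + e₂ + 1)) ^ 24 * (n + 2) ^ 24 :=
              Nat.mul_le_mul (Nat.pow_le_pow_left h6.le _) (Nat.pow_le_pow_left (by omega) _)
          _ = (n + 2) ^ (24 * (e₁ + e₂ + 2)) := by
              rw [← pow_mul, ← pow_add]
              congr 1
              ring
          _ ≤ (n + 2) ^ (24 * (e₁ + e₂ + 2) + 400) :=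
              Nat.pow_le_pow_right (by omega) (by omega)
      omega
    have hex : ∃ n, s n = k ∧ (V i).len n + (V i).cost n ≤ 2 ^ (k / 3 / 8) :=
      ⟨n, hk.symm, hsmall⟩
    have hback : s (back s (V i) k) = k ∧
        (V i).len (back s (V i) k) + (V i).cost (back s (V i) k) ≤ 2 ^ (k / 3 / 8) := by
      unfold back
      rw [dif_pos hex]
      exact hex.choose_spec
    have hne : (allS k).Nonempty := Finset.univ_nonempty
    obtain ⟨hinj, hmem⟩ := (exists_emb allS k).choose_spec hne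
    obtain ⟨O, B, g1, g2, g3, g4, g5, g6⟩ := stage_low (exists_emb allS k).choose hinj
      (rad_le allS k) (by rw [rad_allS]; exact ha) (pull s (V i)) O₀ B₀ hC
      (by rw [rad_allS]; exact hback.2)
    refine ⟨k, hkN, O, B, g1, g2, g3, ⟨fun x hx => ?_, g5⟩, hback.1, g6 _ ?_⟩
    · exact absurd (Finset.mem_univ x) hx
    · unfold tally
      exact decide_eq_true_iff)
  refine ⟨O, B, h2, fun n => tally allS (s n) (B (s n)), fun n => ?_, fun i N => ?_⟩
  · rcases (h1 (s n)).2 with ⟨y, hy⟩ | ⟨z, hz⟩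
    · have hT : tally allS (s n) (B (s n)) = true := by
        unfold tally
        exact decide_eq_true ⟨y, hy⟩
      refine ⟨y, fun _ => false, fun x => ⟨fun _ z => ?_, fun h => ?_⟩⟩
      · exact hy z
      · exact absurd (hT.symm.trans h) (by simp)
    · have hT : tally allS (s n) (B (s n)) = false := by
        unfold tally
        rw [decide_eq_false_iff_not]
        rintro ⟨y, hy⟩
        have h4 := hy z
        rw [hz y] at h4
        exact absurd h4 (by simp)
      refine ⟨fun _ => false, z, fun x => ⟨fun h => ?_, fun _ y => hz y⟩⟩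
      exact absurd (hT.symm.trans h) (by simp)
  · obtain ⟨k, hk, hks, hbad⟩ := h3 i ((Finset.range N).sup s + 1)
    refine ⟨back s (V i) k, ?_, ?_⟩
    · by_contra hcon
      push Not at hcon
      have h4 : s (back s (V i) k) ≤ (Finset.range N).sup s :=
        Finset.le_sup (Finset.mem_range.2 hcon)
      omega
    · intro hS
      apply hbad
      refine pull_S2 s (V i) O k _ ?_
      have e : tally allS (s (back s (V i) k)) (B (s (back s (V i) k))) = tally allS k (B k) := by
        rw [hks]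
      have hS' : S2 ((V i).value O (back s (V i) k))
          (fun _ => tally allS (s (back s (V i) k)) (B (s (back s (V i) k)))) := hS
      rw [e] at hS'
      exact hS'

end Pool.Agent.H.MP_7934a7_lc.h84.SC
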